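import Mathlib
import Pool.Agent.H25.OrdComp

namespace Pool.Agent.Results.MP_bcad5b_nt.ExpSqrt

open Finset Pool.Agent.H25.OrdComp

/-- The number of distinct element orders of a group. -/
noncomputable def numOrders (G : Type) [Group G] : ℕ := (Set.range (orderOf : G → ℕ)).ncard

def w (p a : ℕ) : ℕ := if a = 0 then 0 else p ^ a

def U (m n : ℕ) : Prop := ∀ P : Finset ℕ, ∑ p ∈ P, w p (m.factorization p) ≤ n

lemma U_lcm {a b x y : ℕ} (ha : a ≠ 0) (hb : b ≠ 0) (h1 : U a x) (h2 : U b y) :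
    U (Nat.lcm a b) (x + y) := by
  intro P
  refine le_trans (sum_le_sum (fun p _ => ?_)) (sum_add_distrib.trans_le (add_le_add (h1 P) (h2 P)))
  rw [Nat.factorization_lcm ha hb, Finsupp.sup_apply]
  rcases le_total (a.factorization p) (b.factorization p) with h | h
  · rw [sup_eq_right.2 h]; omega
  · rw [sup_eq_left.2 h]; omega

lemma U_self (m : ℕ) : U m m := by
  induction m using Nat.recOnPosPrimePosCoprime with
  | zero => intro P; simp [w]
  | one => intro P; simp [w]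
  | prime_pow p k hp hk =>
    intro P
    rw [hp.factorization_pow]
    refine le_trans (sum_le_sum (g := fun q => if q = p then p ^ k else 0) (fun q _ => ?_)) ?_
    · by_cases h : q = p
      · subst h; simp [w, hk.ne']
      · simp [w, h, Finsupp.single_apply, Ne.symm h]
    · rw [sum_ite_eq']; split_ifs <;> simp
  | coprime a b ha hb hab iha ihb =>
    intro P
    have := U_lcm (by omega) (by omega) iha ihb P
    rw [hab.lcm_eq_mul] at this
    nlinarith

lemma U_multiset (s : Multiset ℕ) (hs : ∀ x ∈ s, x ≠ 0) : s.lcm ≠ 0 ∧ U s.lcm s.sum := by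
  induction s using Multiset.induction_on with
  | empty => exact ⟨by simp, fun P => by simp [w]⟩
  | cons a s ih =>
    obtain ⟨h1, h2⟩ := ih (fun x hx => hs x (Multiset.mem_cons_of_mem hx))
    have ha := hs a (Multiset.mem_cons_self _ _)
    rw [Multiset.lcm_cons, Multiset.sum_cons]
    exact ⟨Nat.lcm_ne_zero ha h1, U_lcm ha h1 (U_self a) h2⟩

lemma U_order {n : ℕ} (σ : Equiv.Perm (Fin n)) : orderOf σ ≠ 0 ∧ U (orderOf σ) n := by
  obtain ⟨h1, h2⟩ := U_multiset σ.cycleType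
    (fun x hx => by have := Equiv.Perm.two_le_of_mem_cycleType hx; omega)
  rw [Equiv.Perm.lcm_cycleType] at h1 h2
  refine ⟨h1, fun P => (h2 P).trans ?_⟩
  simpa using σ.sum_cycleType_le

def Es (P : Finset ℕ) (K : ℕ → ℕ) : Finset (P → ℕ) :=
  Fintype.piFinset (fun p : P => range (K p + 1))

def cost {P : Finset ℕ} (e : P → ℕ) : ℕ := ∑ p : P, w p (e p)

def Cn (P : Finset ℕ) (K : ℕ → ℕ) (n : ℕ) : ℕ := ((Es P K).filter (fun e => cost e ≤ n)).card

lemma ord_le (P : Finset ℕ) (K : ℕ → ℕ) (n : ℕ) (hP : ∀ p, p.Prime → p ≤ n → p ∈ P)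
    (hK : ∀ p ∈ P, ∀ a, p ^ a ≤ n → a ≤ K p) : numOrders (Equiv.Perm (Fin n)) ≤ Cn P K n := by
  rw [Cn, ← Set.ncard_coe_finset]
  have one : ∀ m p, U m n → m.factorization p ≠ 0 → p ^ m.factorization p ≤ n := by
    intro m p h h0
    simpa [w, h0] using h {p}
  refine Set.ncard_le_ncard_of_injOn (fun m => fun p : P => m.factorization p) ?_ ?_
    (Finset.finite_toSet _)
  · rintro _ ⟨σ, rfl⟩
    obtain ⟨-, h⟩ := U_order σ
    simp only [coe_filter, Es, Fintype.mem_piFinset, mem_range, Set.mem_ofPred_eq]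
    refine ⟨fun p => ?_, ?_⟩
    · by_cases h0 : (orderOf σ).factorization p = 0
      · omega
      · exact Nat.lt_succ_of_le (hK p p.2 _ (one _ _ h h0))
    · rw [cost, sum_coe_sort P (fun p => w p ((orderOf σ).factorization p))]
      exact h P
  · rintro _ ⟨σ, rfl⟩ _ ⟨τ, rfl⟩ he
    obtain ⟨s0, s1⟩ := U_order σ
    obtain ⟨t0, t1⟩ := U_order τ
    refine Nat.eq_of_factorization_eq s0 t0 (fun p => ?_)
    by_cases hp : p ∈ P
    · exact congrFun he ⟨p, hp⟩
    · have z : ∀ m, U m n → m.factorization p = 0 := by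
        intro m hm
        by_contra h0
        have pp : p.Prime := Nat.prime_of_mem_primeFactors (Finsupp.mem_support_iff.2 h0)
        exact hp (hP p pp ((Nat.le_self_pow h0 p).trans (one _ _ hm h0)))
      rw [z _ s1, z _ t1]

lemma gen {R : Type} [CommSemiring R] (P : Finset ℕ) (K : ℕ → ℕ) (x : R) :
    ∑ e ∈ Es P K, x ^ cost e = ∏ p ∈ P, ∑ a ∈ range (K p + 1), x ^ w p a := by
  rw [← prod_coe_sort P (fun p => ∑ a ∈ range (K p + 1), x ^ w p a), prod_univ_sum]
  exact sum_congr rfl (fun e _ => (prod_pow_eq_pow_sum _ _ _).symm)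

/-! ### The analytic bound -/

noncomputable def hh (t : ℝ) : ℝ := t - t ^ 2 / 2 + t ^ 3 / 3

lemma hh_nonneg {t : ℝ} (h : 0 ≤ t) : 0 ≤ hh t := by
  have : hh t = t * ((t - 3 / 4) ^ 2 / 3 + 13 / 16) := by rw [hh]; ring
  rw [this]; positivity

lemma le_exp_hh {t : ℝ} (h0 : 0 ≤ t) (h1 : t ≤ 1) : 1 + t ≤ Real.exp (hh t) := by
  refine le_trans ?_ (Real.sum_le_exp_of_nonneg (hh_nonneg h0) 4)
  have e : ∑ i ∈ range 4, hh t ^ i / (i.factorial : ℝ) = 1 + t +
      (t ^ 4 * (5 / 24 - 19 / 144 * t ^ 2) + t ^ 5 / 8 + t ^ 7 * (7 / 72 - t / 36) + t ^ 9 / 162) := by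
    simp only [sum_range_succ, range_zero, sum_empty, hh, Nat.factorial]
    push_cast
    ring
  rw [e]
  have a1 : 0 ≤ 5 / 24 - 19 / 144 * t ^ 2 := by nlinarith
  have a2 : 0 ≤ 7 / 72 - t / 36 := by linarith
  have : 0 ≤ t ^ 4 * (5 / 24 - 19 / 144 * t ^ 2) + t ^ 5 / 8 + t ^ 7 * (7 / 72 - t / 36)
    + t ^ 9 / 162 := by positivity
  linarith

def cnt (k : ℕ) : ℕ := Nat.count (fun j => Nat.Coprime 210 j) k

lemma cnt_add (k : ℕ) : cnt (210 + k) = 48 + cnt k := by
  have h1 : Nat.count (fun j => Nat.Coprime 210 j) 210 = 48 := by decide +kernel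
  have h2 : Nat.count (fun j => Nat.Coprime 210 (210 + j)) k = cnt k := by simp [cnt]
  rw [cnt, Nat.count_add, h1, h2]

lemma cnt_le (k : ℕ) (h : Nat.Coprime 210 k) : 35 * cnt k ≤ 8 * k + 18 := by
  induction k using Nat.strong_induction_on with
  | _ k ih =>
    by_cases hk : k < 210
    · have : ∀ k < 210, Nat.Coprime 210 k → 35 * cnt k ≤ 8 * k + 18 := by
        unfold cnt; decide +kernel
      exact this k hk h
    · obtain ⟨j, rfl⟩ : ∃ j, k = 210 + j := ⟨k - 210, by omega⟩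
      have := ih j (by omega) (by simpa using h)
      rw [cnt_add]; omega

lemma cnt_pos {k : ℕ} (h : 2 ≤ k) : 1 ≤ cnt k := by
  have : cnt 2 ≤ cnt k := Nat.count_monotone _ h
  have h2 : cnt 2 = 1 := by unfold cnt; decide +kernel
  omega

lemma geo {z : ℝ} (hz : 0 < z) : Real.exp (-z) < 1 ∧ 1 / z ≤ (1 - Real.exp (-z))⁻¹ ∧
    (1 - Real.exp (-z))⁻¹ ≤ 1 / z + 1 := by
  have h1 : Real.exp (-z) < 1 := Real.exp_lt_one_iff.2 (by linarith)
  have h2 := Real.add_one_le_exp (-z)
  have h3 : Real.exp (-z) * (z + 1) ≤ 1 := by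
    have := mul_le_mul_of_nonneg_left (Real.add_one_le_exp z) (Real.exp_pos (-z)).le
    rwa [← Real.exp_add, neg_add_cancel, Real.exp_zero] at this
  refine ⟨h1, ?_, ?_⟩
  · rw [one_div]; exact inv_anti₀ (by linarith) (by linarith)
  · rw [inv_le_comm₀ (by linarith) (by positivity),
      show (1 / z + 1)⁻¹ = z / (z + 1) by field_simp; ring, div_le_iff₀ (by linarith)]
    nlinarith

lemma tail (s : ℝ) (hs : 0 < s) (I : Finset ℕ) :
    ∑ i ∈ I, hh (Real.exp (-(17 / 8 * s)) * Real.exp (-(35 / 8 * s)) ^ i)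
      ≤ 62 / 315 / s + 1.58 := by
  set v := Real.exp (-(17 / 8 * s)) with hv
  set y := Real.exp (-(35 / 8 * s)) with hy
  have v0 : 0 < v := Real.exp_pos _
  have y0 : 0 < y := Real.exp_pos _
  have v1 : v ≤ 1 := Real.exp_le_one_iff.2 (by linarith)
  obtain ⟨a1, -, a3⟩ := geo (z := 35 / 8 * s) (by linarith)
  obtain ⟨b1, b2, -⟩ := geo (z := 2 * (35 / 8 * s)) (by linarith)
  obtain ⟨c1, -, c3⟩ := geo (z := 3 * (35 / 8 * s)) (by linarith)
  have e2 : Real.exp (-(2 * (35 / 8 * s))) = y ^ 2 := by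
    rw [hy, ← Real.exp_nat_mul]; congr 1; push_cast; ring
  have e3 : Real.exp (-(3 * (35 / 8 * s))) = y ^ 3 := by
    rw [hy, ← Real.exp_nat_mul]; congr 1; push_cast; ring
  rw [e2] at b1 b2
  rw [e3] at c1 c3
  have H := (((hasSum_geometric_of_lt_one y0.le a1).mul_left v).sub
    ((hasSum_geometric_of_lt_one (by positivity) b1).mul_left (v ^ 2 / 2))).add
    ((hasSum_geometric_of_lt_one (by positivity) c1).mul_left (v ^ 3 / 3))
  have H2 : HasSum (fun i : ℕ => hh (v * y ^ i))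
      (v * (1 - y)⁻¹ - v ^ 2 / 2 * (1 - y ^ 2)⁻¹ + v ^ 3 / 3 * (1 - y ^ 3)⁻¹) := by
    refine HasSum.congr_fun H ?_
    intro i
    rw [hh, ← pow_mul, ← pow_mul]; ring
  refine (sum_le_hasSum I (fun i _ => hh_nonneg (by positivity)) H2).trans ?_
  have v2 : 1 - 17 / 4 * s ≤ v ^ 2 := by
    rw [hv, ← Real.exp_nat_mul]
    have := Real.add_one_le_exp (((2 : ℕ) : ℝ) * -(17 / 8 * s))
    push_cast at this ⊢
    linarith
  have v3 : v ^ 3 ≤ 1 := pow_le_one₀ v0.le v1
  have t1 : v * (1 - y)⁻¹ ≤ 1 * (1 / (35 / 8 * s) + 1) :=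
    mul_le_mul v1 a3 (inv_nonneg.2 (by linarith)) (by norm_num)
  have t3 : v ^ 3 * (1 - y ^ 3)⁻¹ ≤ 1 * (1 / (3 * (35 / 8 * s)) + 1) :=
    mul_le_mul v3 c3 (inv_nonneg.2 (by linarith)) (by norm_num)
  have t2 : (1 - 17 / 4 * s) * (1 / (2 * (35 / 8 * s))) ≤ v ^ 2 * (1 - y ^ 2)⁻¹ :=
    mul_le_mul v2 b2 (by positivity) (by positivity)
  have f1 : 1 / (35 / 8 * s) = 8 / 35 * (1 / s) := by field_simp
  have f2 : (1 - 17 / 4 * s) * (1 / (2 * (35 / 8 * s))) = 4 / 35 * (1 / s) - 17 / 35 := by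
    field_simp; ring
  have f3 : 1 / (3 * (35 / 8 * s)) = 8 / 105 * (1 / s) := by field_simp; ring
  have f4 : 62 / 315 / s = 62 / 315 * (1 / s) := by field_simp
  rw [f1] at t1
  rw [f2] at t2
  rw [f3] at t3
  rw [f4]
  linarith

lemma one_add_sum (f g : ℕ → ℝ) (h0 : ∀ a, 0 ≤ f a) (h : ∀ a, 1 + f a ≤ Real.exp (g a)) (K : ℕ) :
    1 + ∑ a ∈ range K, f a ≤ Real.exp (∑ a ∈ range K, g a) := by
  induction K with
  | zero => simp
  | succ K ih =>
    rw [sum_range_succ, sum_range_succ, Real.exp_add]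
    have : 0 ≤ ∑ a ∈ range K, f a := sum_nonneg (fun a _ => h0 a)
    have := mul_le_mul ih (h K) (by linarith [h0 K]) (Real.exp_pos _).le
    nlinarith [h0 K]

lemma rankin (P : Finset ℕ) (hP : ∀ p ∈ P, p.Prime) (K : ℕ → ℕ) (n : ℕ) (s : ℝ) (hs : 0 < s) :
    (Cn P K n : ℝ) ≤ Real.exp (s * n) * ((((K 2 + 1) * (K 3 + 1) * (K 5 + 1) * (K 7 + 1) : ℕ) : ℝ)
      * Real.exp (62 / 315 / s + 1.58)) := by
  set x := Real.exp (-s) with hx
  have x0 : 0 < x := Real.exp_pos _
  have x1 : x ≤ 1 := Real.exp_le_one_iff.2 (by linarith)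
  have step1 : (Cn P K n : ℝ) ≤ Real.exp (s * n) * ∑ e ∈ Es P K, x ^ cost e := by
    rw [Cn, card_eq_sum_ones, mul_sum]
    push_cast
    refine (sum_le_sum (g := fun e => Real.exp (s * n) * x ^ cost e) (fun e he => ?_)).trans
      (sum_le_sum_of_subset_of_nonneg (filter_subset _ _) (fun e _ _ => by positivity))
    have : (cost e : ℝ) ≤ n := by exact_mod_cast (mem_filter.1 he).2
    rw [hx, ← Real.exp_nat_mul, ← Real.exp_add]
    exact Real.one_le_exp (by nlinarith)
  refine step1.trans (mul_le_mul_of_nonneg_left ?_ (Real.exp_pos _).le)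
  rw [gen, ← prod_filter_mul_prod_filter_not P (fun p => p ∈ ({2, 3, 5, 7} : Finset ℕ))]
  refine mul_le_mul ?_ ?_ (prod_nonneg (fun p _ => sum_nonneg (fun a _ => by positivity)))
    (by positivity)
  · refine (prod_le_prod (g := fun p => ((K p + 1 : ℕ) : ℝ))
      (fun p _ => sum_nonneg (fun a _ => by positivity)) (fun p _ => ?_)).trans ?_
    · refine (sum_le_card_nsmul _ _ 1 (fun a _ => pow_le_one₀ x0.le x1)).trans ?_
      simp
    · rw [← Nat.cast_prod, Nat.cast_le]
      refine (prod_le_prod_of_subset_of_one_le' (t := {2, 3, 5, 7})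
        (fun p hp => (mem_filter.1 hp).2) (fun p _ _ => by omega)).trans ?_
      simp [mul_assoc]
  · set Q := P.filter (fun p => ¬ p ∈ ({2, 3, 5, 7} : Finset ℕ)) with hQ
    let t : ℕ → ℝ := fun i => Real.exp (-(17 / 8 * s)) * Real.exp (-(35 / 8 * s)) ^ i
    have cop : ∀ p ∈ Q, ∀ a, Nat.Coprime 210 (p ^ (a + 1)) ∧ 2 ≤ p ^ (a + 1) := by
      intro p hp a
      obtain ⟨h1, h2⟩ := mem_filter.1 hp
      have pp := hP p h1
      simp only [mem_insert, mem_singleton, not_or] at h2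
      refine ⟨Nat.Coprime.pow_right _ ?_, pp.two_le.trans (Nat.le_self_pow (by omega) p)⟩
      rw [show 210 = 2 * 3 * 5 * 7 by norm_num]
      refine Nat.Coprime.mul_left (Nat.Coprime.mul_left (Nat.Coprime.mul_left ?_ ?_) ?_) ?_ <;>
        exact (Nat.coprime_primes (by norm_num) pp).2 (by omega)
    refine (prod_le_prod (g := fun p => Real.exp (∑ a ∈ range (K p), hh (t (cnt (p ^ (a + 1)) - 1))))
      (fun p _ => sum_nonneg (fun a _ => by positivity)) (fun p hp => ?_)).trans ?_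
    · rw [sum_range_succ', add_comm]
      have e : ∀ a, w p (a + 1) = p ^ (a + 1) := fun a => by simp [w]
      simp only [e, show w p 0 = 0 from rfl, pow_zero]
      refine one_add_sum _ _ (fun a => by positivity) (fun a => ?_) _
      obtain ⟨c1, c2⟩ := cop p hp a
      have c3 := cnt_le _ c1
      have c4 := cnt_pos c2
      generalize p ^ (a + 1) = k at *
      obtain ⟨i, hi⟩ : ∃ i, cnt k = i + 1 := ⟨cnt k - 1, by omega⟩
      rw [hi] at c3 ⊢
      have c5 : (35 : ℝ) * (i + 1) ≤ 8 * k + 18 := by exact_mod_cast c3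
      have i0 : (0 : ℝ) ≤ i := Nat.cast_nonneg i
      have et : t i = Real.exp (-(17 / 8 * s) + i * -(35 / 8 * s)) := by
        simp only [t]; rw [Real.exp_add, Real.exp_nat_mul]
      refine le_trans ?_ (le_exp_hh (by positivity) ?_)
      · rw [Nat.add_sub_cancel, et, hx, ← Real.exp_nat_mul]
        exact add_le_add_right (Real.exp_le_exp.2 (by nlinarith)) _
      · rw [Nat.add_sub_cancel, et]
        exact Real.exp_le_one_iff.2 (by nlinarith)
    · rw [← Real.exp_sum, Real.exp_le_exp, sum_sigma']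
      rw [← sum_image (s := Q.sigma fun p => range (K p))
        (g := fun z => cnt (z.1 ^ (z.2 + 1)) - 1) (f := fun i => hh (t i))]
      · exact tail s hs _
      · rintro ⟨p, a⟩ h1 ⟨q, b⟩ h2 he
        simp only [coe_sigma, Set.mem_sigma_iff, mem_coe] at h1 h2
        obtain ⟨c1, c2⟩ := cop p h1.1 a
        obtain ⟨d1, d2⟩ := cop q h2.1 b
        have c4 := cnt_pos c2
        have d4 := cnt_pos d2
        have e1 : cnt (p ^ (a + 1)) = cnt (q ^ (b + 1)) := by
          simp only at he; omega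
        have e2 := Nat.count_injective c1 d1 e1
        have pp := hP p (mem_filter.1 h1.1).1
        have qq := hP q (mem_filter.1 h2.1).1
        have e3 : p = q := (Nat.prime_dvd_prime_iff_eq pp qq).1
          (pp.dvd_of_dvd_pow (e2 ▸ dvd_pow_self p (Nat.succ_ne_zero a)))
        subst e3
        have e4 := Nat.pow_right_injective pp.two_le e2
        have e5 : a = b := by omega
        subst e5
        rfl

lemma rankin2 (P : Finset ℕ) (hP : ∀ p ∈ P, p.Prime) (K : ℕ → ℕ) (n : ℕ) (hn : 0 < n) (c : ℝ)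
    (hc : (((K 2 + 1) * (K 3 + 1) * (K 5 + 1) * (K 7 + 1) : ℕ) : ℝ) ≤ Real.exp c) :
    (Cn P K n : ℝ) ≤ Real.exp (0.88731 * √n + c + 1.58) := by
  have r0 : 0 < √(n : ℝ) := Real.sqrt_pos.2 (by exact_mod_cast hn)
  have r2 := Real.mul_self_sqrt (Nat.cast_nonneg (α := ℝ) n)
  refine (rankin P hP K n (4 / 9 / √n) (by positivity)).trans ?_
  refine (mul_le_mul_of_nonneg_left (mul_le_mul_of_nonneg_right hc (Real.exp_pos _).le)
    (Real.exp_pos _).le).trans ?_
  rw [← Real.exp_add, ← Real.exp_add, Real.exp_le_exp]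
  generalize √(n : ℝ) = r at *
  rw [← r2, show 4 / 9 / r * (r * r) = 4 / 9 * r by field_simp,
    show 62 / 315 / (4 / 9 / r) = 31 / 70 * r by field_simp; ring]
  linarith

lemma exp_ge (k : ℕ) : (2.718 : ℝ) ^ k ≤ Real.exp k := by
  rw [← Real.exp_one_pow]
  exact pow_le_pow_left₀ (by norm_num) (by linarith [Real.exp_one_gt_d9]) k

lemma exp_ge' (k : ℕ) (d : ℝ) (hd : 0 ≤ d) :
    (2.718 : ℝ) ^ k * (1 + d + d ^ 2 / 2 + d ^ 3 / 6) ≤ Real.exp (k + d) := by
  rw [Real.exp_add]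
  refine mul_le_mul (exp_ge k) (le_trans (le_of_eq ?_) (Real.sum_le_exp_of_nonneg hd 4))
    (by positivity) (Real.exp_pos _).le
  simp only [sum_range_succ, range_zero, sum_empty, Nat.factorial]
  push_cast
  ring

lemma large (n : ℕ) (hn : 8192 ≤ n) : (numOrders (Equiv.Perm (Fin n)) : ℝ) ≤ Real.exp √n := by
  have hP : ∀ p ∈ (range (n + 1)).filter Nat.Prime, p.Prime := fun p hp => (mem_filter.1 hp).2
  have h1 := ord_le ((range (n + 1)).filter Nat.Prime) (fun p => Nat.log p n) n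
    (fun p hp h => mem_filter.2 ⟨mem_range.2 (by omega), hp⟩)
    (fun p hp a h => Nat.le_log_of_pow_le (hP p hp).one_lt h)
  refine le_trans (Nat.cast_le.2 h1) ?_
  by_cases h : n < 16384
  · refine (rankin2 _ hP _ n (by omega) ((8 : ℕ) + 0.4) ?_).trans (Real.exp_le_exp.2 ?_)
    · have k2 : Nat.log 2 n < 14 := Nat.log_lt_of_lt_pow (by omega) (by omega)
      have k3 : Nat.log 3 n < 9 := Nat.log_lt_of_lt_pow (by omega) (by omega)
      have k5 : Nat.log 5 n < 7 := Nat.log_lt_of_lt_pow (by omega) (by omega)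
      have k7 : Nat.log 7 n < 5 := Nat.log_lt_of_lt_pow (by omega) (by omega)
      refine le_trans ?_ (exp_ge' 8 0.4 (by norm_num))
      refine le_trans (Nat.cast_le.2 (Nat.mul_le_mul (Nat.mul_le_mul (Nat.mul_le_mul k2 k3) k5) k7))
        (by norm_num)
    · have : (90 : ℝ) ≤ √n := Real.le_sqrt_of_sq_le (by
        have : (8192 : ℝ) ≤ n := by exact_mod_cast hn
        linarith)
      push_cast
      linarith
  · obtain ⟨j, hj⟩ : ∃ j, Nat.log 2 n = 14 + j :=
      ⟨Nat.log 2 n - 14, by have := Nat.le_log_of_pow_le (b := 2) (x := 14) (y := n) (by omega) (by omega); omega⟩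
    have mono : ∀ p, 2 ≤ p → Nat.log p n + 1 ≤ 15 + j := fun p hp => by
      have := Nat.log_anti_left (n := n) (by omega : 1 < 2) hp
      omega
    refine (rankin2 _ hP _ n (by omega) ((11 : ℕ) + 4 * (j / 15)) ?_).trans (Real.exp_le_exp.2 ?_)
    · refine le_trans (Nat.cast_le.2 (Nat.mul_le_mul (Nat.mul_le_mul (Nat.mul_le_mul
        (mono 2 (by omega)) (mono 3 (by omega))) (mono 5 (by omega))) (mono 7 (by omega)))) ?_
      have a1 := Real.add_one_le_exp ((j : ℝ) / 15)
      have a2 := pow_le_pow_left₀ (by positivity) a1 4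
      rw [← Real.exp_nat_mul] at a2
      have a3 : (15 : ℝ) ^ 4 ≤ Real.exp (11 : ℕ) := le_trans (by norm_num) (exp_ge 11)
      rw [Real.exp_add]
      refine le_trans (le_of_eq ?_) (mul_le_mul a3 a2 (by positivity) (Real.exp_pos _).le)
      push_cast; ring
    · have b1 : ∀ j : ℕ, (4 + j) ^ 2 ≤ 16 * 2 ^ j := by
        intro j
        induction j with
        | zero => norm_num
        | succ j ih =>
          have : (4 + (j + 1)) ^ 2 ≤ 2 * (4 + j) ^ 2 := by nlinarith [Nat.zero_le j]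
          rw [pow_succ 2 j]; omega
      have b2 : 2 ^ (14 + j) ≤ n := hj ▸ Nat.pow_log_le_self 2 (by omega)
      have b3 : (128 + 32 * j) ^ 2 ≤ n := by
        have := b1 j
        rw [pow_add] at b2
        nlinarith
      have b4 : (128 + 32 * j : ℝ) ≤ √n := Real.le_sqrt_of_sq_le (by exact_mod_cast b3)
      have j0 : (0 : ℝ) ≤ j := Nat.cast_nonneg j
      push_cast
      linarith

/-! ### The finite range -/

lemma test_iff (k : ℕ) (hk : k < 8192) : test k = true ↔ k.Prime := by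
  have hW : W = Nat.factorial 90 := by decide +kernel
  unfold test
  split_ifs with h
  · interval_cases k <;> simp [small] <;> norm_num
  · rw [beq_iff_eq, hW]
    constructor
    · intro hg
      by_contra hp
      have h1 := Nat.minFac_sq_le_self (by omega) hp
      have h2 : k.minFac.Prime := Nat.minFac_prime (by omega)
      have h3 : k.minFac ≤ 90 := by nlinarith
      have h4 := Nat.dvd_gcd (Nat.minFac_dvd k) (h2.dvd_factorial.2 h3)
      rw [hg] at h4
      exact h2.one_lt.ne' (Nat.dvd_one.1 h4)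
    · intro hp
      exact (Nat.Prime.coprime_iff_not_dvd hp).2 (fun hd => h (hp.dvd_factorial.1 hd))

def X : ℕ := 2 ^ 136

lemma hX (q : ℕ) : 2 ^ (136 * q) = X ^ q := pow_mul 2 136 q

lemma X_pos : 0 < X := by unfold X; positivity

lemma pw_mod (F p : ℕ) (hp : 0 < p) (f : ℕ) : ∀ a,
    pw F p f (p ^ a) ≡ F * ∑ i ∈ range f, X ^ p ^ (a + i) [MOD X ^ 8192] := by
  induction f with
  | zero => intro a; simp [pw, Nat.ModEq]
  | succ f ih =>
    intro a
    rw [pw]
    split_ifs with h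
    · rw [Nat.shiftLeft_eq, hX, ← pow_succ, sum_range_succ', mul_add, add_comm]
      refine Nat.ModEq.add ?_ (by rfl)
      simpa only [add_assoc, add_comm 1] using ih (a + 1)
    · refine (Nat.modEq_zero_iff_dvd.2 (Dvd.dvd.mul_left (dvd_sum (fun i _ => pow_dvd_pow _ ?_)) _)).symm
      have : p ^ a ≤ p ^ (a + i) := Nat.pow_le_pow_right hp (by omega)
      omega

lemma build_mod (k : ℕ) : k ≤ 8192 → ∀ F, build k F ≡
    F * ∏ p ∈ (range k).filter Nat.Prime, ∑ a ∈ range (13 + 1), X ^ w p a [MOD X ^ 8192] := by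
  induction k with
  | zero => intro _ F; simp [build, Nat.ModEq]
  | succ k ih =>
    intro hk F
    rw [build, range_add_one, filter_insert]
    by_cases h : k.Prime
    · rw [if_pos ((test_iff k (by omega)).2 h), if_pos h, force_eq, prod_insert (by simp),
        Nat.and_two_pow_sub_one_eq_mod, hX, ← mul_assoc]
      refine (ih (by omega) _).trans (Nat.ModEq.mul_right _ ((Nat.mod_modEq _ _).trans ?_))
      have h1 := pw_mod F k h.pos 13 1
      rw [pow_one] at h1
      have e : ∀ a, w k (a + 1) = k ^ (1 + a) := fun a => by simp [w, add_comm]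
      rw [sum_range_succ', mul_add, add_comm]
      simp only [e, show w k 0 = 0 from rfl, pow_zero, mul_one]
      exact h1.add_right F
    · rw [if_neg (fun ht => h ((test_iff k (by omega)).1 ht)), if_neg h]
      exact ih (by omega) F

section

variable (P : Finset ℕ)

def cc (j : ℕ) : ℕ := ∑ e ∈ Es P (fun _ => 13), if cost e = j then 1 else 0
def Acc (j : ℕ) : ℕ := ∑ e ∈ Es P (fun _ => 13), if cost e < j then 1 else 0
def Gt (j : ℕ) : ℕ := ∑ e ∈ Es P (fun _ => 13), if j ≤ cost e then X ^ (cost e - j) else 0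

lemma Acc_succ (j : ℕ) : Acc P (j + 1) = Acc P j + cc P j := by
  rw [Acc, Acc, cc, ← sum_add_distrib]
  exact sum_congr rfl (fun e _ => by split_ifs <;> omega)

lemma Acc_eq (j : ℕ) : Cn P (fun _ => 13) j = Acc P (j + 1) := by
  rw [Cn, card_filter, Acc]
  exact sum_congr rfl (fun e _ => by simp only [Nat.lt_succ_iff])

lemma Gt_succ (j : ℕ) : Gt P j = cc P j + X * Gt P (j + 1) := by
  rw [Gt, Gt, cc, mul_sum, ← sum_add_distrib]
  refine sum_congr rfl (fun e _ => ?_)
  by_cases h : cost e = j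
  · simp [h]
  · by_cases h2 : j + 1 ≤ cost e
    · rw [if_pos (by omega), if_neg h, if_pos h2, ← pow_succ', zero_add]
      congr 1; omega
    · rw [if_neg (by omega), if_neg h, if_neg h2]; simp

variable {P} (hP : ∀ p ∈ P, p.Prime)
include hP

lemma cc_lt (j : ℕ) (hj : j < 8192) : cc P j < X := by
  have h0 : cc P j ≤ Cn P (fun _ => 13) 8281 := by
    rw [Acc_eq, cc, Acc]
    exact sum_le_sum (fun e _ => by split_ifs <;> omega)
  have h2 := rankin2 P hP (fun _ => 13) 8281 (by norm_num)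
    ((11 : ℕ) : ℝ) (le_trans (by norm_num) (exp_ge 11))
  have h3 : √((8281 : ℕ) : ℝ) = 91 := by
    rw [show ((8281 : ℕ) : ℝ) = 91 ^ 2 by norm_num, Real.sqrt_sq (by norm_num)]
  rw [h3] at h2
  have h4 : Real.exp (0.88731 * 91 + (11 : ℕ) + 1.58) ≤ Real.exp 1 ^ 94 := by
    rw [Real.exp_one_pow, Real.exp_le_exp]; norm_num
  have h5 : Real.exp 1 ^ 94 ≤ 2.7182818286 ^ 94 :=
    pow_le_pow_left₀ (Real.exp_pos _).le Real.exp_one_lt_d9.le _
  have h6 : (2.7182818286 : ℝ) ^ 94 < 2 ^ 136 := by norm_num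
  have h7 : ((cc P j : ℕ) : ℝ) ≤ Cn P (fun _ => 13) 8281 := Nat.cast_le.2 h0
  have h8 : ((cc P j : ℕ) : ℝ) < ((2 ^ 136 : ℕ) : ℝ) := by push_cast; linarith
  exact Nat.cast_lt.1 h8

lemma Gt_div (j i : ℕ) (h : j + i ≤ 8192) : Gt P j / X ^ i = Gt P (j + i) := by
  induction i with
  | zero => simp
  | succ i ih =>
    rw [pow_succ, ← Nat.div_div_eq_div_mul, ih (by omega), Gt_succ P (j + i),
      Nat.add_mul_div_left _ _ X_pos, Nat.div_eq_of_lt (cc_lt hP _ (by omega)), zero_add, add_assoc]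

lemma shift {F j i f : ℕ} (h : j + i ≤ 8192) (hF : F % X ^ (i + f) = Gt P j % X ^ (i + f)) :
    F / X ^ i % X ^ f = Gt P (j + i) % X ^ f ∧ F % X ^ i = Gt P j % X ^ i := by
  constructor
  · rw [← Gt_div hP j i h, ← Nat.mod_mul_right_div_self, ← Nat.mod_mul_right_div_self, ← pow_add, hF]
  · exact Nat.ModEq.of_dvd (pow_dvd_pow _ (by omega)) hF

omit hP in
def Inv (j k T : ℕ) : Prop := k ^ 2 ≤ 1024 * j ∧ (T : ℝ) ≤ 2 ^ 64 * Real.exp (k / 32)

omit hP in
lemma adv_inv (j f : ℕ) : ∀ k T, Inv j k T → Inv j (adv f j k T).1 (adv f j k T).2 := by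
  induction f with
  | zero => intro k T h; exact h
  | succ f ih =>
    intro k T h
    rw [adv]
    split_ifs with hk
    · simp only [force_eq]
      refine ih _ _ ⟨hk, Nat.cast_div_le.trans ?_⟩
      have e1 : (10317433 / 10000000 : ℝ) ≤ Real.exp (1 / 32) := by
        refine le_trans ?_ (Real.sum_le_exp_of_nonneg (by norm_num) 4)
        simp only [sum_range_succ, range_zero, sum_empty, Nat.factorial]
        norm_num
      have e2 := mul_le_mul h.2 e1 (by norm_num) (by positivity)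
      push_cast
      rw [add_div, Real.exp_add, mul_div_assoc, ← mul_assoc]
      exact e2
    · exact h

lemma chk_sound (cont : ℕ → ℕ → ℕ → Bool) (f : ℕ) : ∀ j F k T, j + f ≤ 8192 →
    F % X ^ f = Gt P j % X ^ f → Inv j k T → chk cont f j F (Acc P j) k T = true →
    (∀ i, j ≤ i → i < j + f → (Acc P (i + 1) : ℝ) ≤ Real.exp √i) ∧
      ∃ k' T', Inv (j + f) k' T' ∧ cont (Acc P (j + f)) k' T' = true := by
  induction f with
  | zero => intro j F k T _ _ h3 h4; exact ⟨fun i h1 h2 => by omega, k, T, h3, h4⟩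
  | succ f ih =>
    intro j F k T h1 h2 h3 h4
    rw [add_comm f 1] at h2
    obtain ⟨s1, s2⟩ := shift hP (by omega) h2
    rw [pow_one] at s1 s2
    rw [Gt_succ P j, Nat.add_mul_mod_self_left, Nat.mod_eq_of_lt (cc_lt hP j (by omega))] at s2
    have a1 := adv_inv j 32 k T h3
    rw [chk] at h4
    simp only [force_eq, Bool.and_eq_true, decide_eq_true_eq, Nat.and_two_pow_sub_one_eq_mod,
      Nat.shiftRight_eq_div_pow] at h4
    have eX : 2 ^ 136 = X := rfl
    rw [eX, s2, ← Acc_succ] at h4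
    obtain ⟨b1, b2⟩ := h4
    generalize adv 32 j k T = r at *
    obtain ⟨c1, c2⟩ := ih (j + 1) _ _ _ (by omega) s1 ⟨a1.1.trans (by omega), a1.2⟩ b2
    refine ⟨fun i i1 i2 => ?_, by rwa [show j + (f + 1) = j + 1 + f by ring]⟩
    rcases Nat.eq_or_lt_of_le i1 with rfl | i1
    · have d1 : (Acc P (j + 1) : ℝ) * 2 ^ 64 ≤ r.2 := by exact_mod_cast b1
      have d2 : (r.1 : ℝ) / 32 ≤ √j := Real.le_sqrt_of_sq_le (by
        have : ((r.1 : ℝ)) ^ 2 ≤ 1024 * j := by exact_mod_cast a1.1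
        linarith)
      have d3 := Real.exp_le_exp.2 d2
      have d4 := a1.2
      linarith
    · exact c1 i i1 (by omega)

lemma out_sound (g : ℕ) : ∀ j F k T, j + 64 * g ≤ 8192 →
    F % X ^ (64 * g) = Gt P j % X ^ (64 * g) → Inv j k T → out g j F (Acc P j) k T = true →
    ∀ i, j ≤ i → i < j + 64 * g → (Acc P (i + 1) : ℝ) ≤ Real.exp √i := by
  induction g with
  | zero => intro j F k T _ _ _ _ i h1 h2; omega
  | succ g ih =>
    intro j F k T h1 h2 h3 h4 i i1 i2
    rw [show 64 * (g + 1) = 64 + 64 * g by ring] at h2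
    obtain ⟨s1, s2⟩ := shift hP (by omega) h2
    simp only [out, force_eq, Nat.and_two_pow_sub_one_eq_mod, Nat.shiftRight_eq_div_pow] at h4
    simp only [hX] at h4
    obtain ⟨c1, k', T', c2, c3⟩ := chk_sound hP _ 64 j _ k T (by omega) ((Nat.mod_mod _ _).trans s2) h3 h4
    by_cases h : i < j + 64
    · exact c1 i i1 h
    · exact ih (j + 64) _ _ _ (by omega) s1 c2 c3 i (by omega) (by omega)

lemma fin_range (N g F : ℕ) (hg : 64 * g = N) (hN : N = 8192)
    (hF : F ≡ ∏ p ∈ P, ∑ a ∈ range (13 + 1), X ^ w p a [MOD X ^ N])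
    (c : out g 0 F 0 0 (2 ^ 64) = true) (n : ℕ) (hn : n < N) :
    (Cn P (fun _ => 13) n : ℝ) ≤ Real.exp √n := by
  rw [Acc_eq]
  have a0 : Acc P 0 = 0 := by simp [Acc]
  have g0 : Gt P 0 = ∏ p ∈ P, ∑ a ∈ range (13 + 1), X ^ w p a := by
    rw [← gen P (fun _ => 13) X, Gt]
    exact sum_congr rfl (fun e _ => by simp)
  refine out_sound hP g 0 F 0 (2 ^ 64) (by omega) (by rw [g0, hg]; exact hF)
    ⟨by norm_num, by norm_num⟩ (by rw [a0]; exact c) n (by omega) (by omega)

end

lemma fin_range' (N : ℕ) (hN : N = 8192)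
    (c : force (build N 1) (fun F => out 128 0 F 0 0 (2 ^ 64)) = true)
    (n : ℕ) (hn : n < N) : (numOrders (Equiv.Perm (Fin n)) : ℝ) ≤ Real.exp √n := by
  have h1 := ord_le ((range N).filter Nat.Prime) (fun _ => 13) n
    (fun p hp h => mem_filter.2 ⟨mem_range.2 (by omega), hp⟩)
    (fun p hp a ha => by
      by_contra hc
      have h2 : 2 ^ 14 ≤ p ^ a := (Nat.pow_le_pow_left (mem_filter.1 hp).2.two_le 14).trans
        (Nat.pow_le_pow_right (mem_filter.1 hp).2.pos (by omega))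
      omega)
  refine le_trans (Nat.cast_le.2 h1) ?_
  rw [force_eq] at c
  have b := build_mod N hN.le 1
  rw [one_mul, ← hN] at b
  exact fin_range (fun p hp => (mem_filter.1 hp).2) N 128 (build N 1) (by omega) hN b c n hn

theorem result (n : ℕ) (_hn : 1 ≤ n) :
    (numOrders (Equiv.Perm (Fin n)) : ℝ) ≤ Real.exp (Real.sqrt n) := by
  by_cases h : 8192 ≤ n
  · exact large n h
  · exact fin_range' 8192 rfl comp n (by omega)

end Pool.Agent.Results.MP_bcad5b_nt.ExpSqrt
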